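import Pool.Agent.Lib_helper50.ConnBij.Main

set_option autoImplicit false
open Set Cardinal

namespace Pool.Agent.Results.MP_8f6e3d_gt.ConnectedBijections

/-- A function is *connected* if it maps connected sets to connected sets (Mathlib's `IsConnected`
includes non-emptiness). No continuity is assumed. -/
def ConnectedMap {X Y : Type} [TopologicalSpace X] [TopologicalSpace Y] (f : X → Y) : Prop :=
  ∀ S : Set X, IsConnected S → IsConnected (f '' S)

/-- Transfer along homeomorphisms. -/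
lemma transfer {X Y : Type} [TopologicalSpace X] [TopologicalSpace Y] (φ : X ≃ₜ Y) (f : Y ≃ Y)
    (h : ConnectedMap f) : ConnectedMap ((φ.toEquiv.trans f).trans φ.symm.toEquiv) := by
  intro S hS
  have h1 : IsConnected (φ '' S) := hS.image _ φ.continuous.continuousOn
  have h2 := (h _ h1).image _ φ.symm.continuous.continuousOn
  have h3 : ((φ.toEquiv.trans f).trans φ.symm.toEquiv) '' S = φ.symm '' (f '' (φ '' S)) := by
    rw [image_image, image_image]
    rfl
  rw [h3]
  exact h2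

lemma transfer_iff {X Y : Type} [TopologicalSpace X] [TopologicalSpace Y] (φ : X ≃ₜ Y) :
    (∃ f : X ≃ X, ConnectedMap f ∧ ¬ ConnectedMap f.symm) ↔
      (∃ f : Y ≃ Y, ConnectedMap f ∧ ¬ ConnectedMap f.symm) := by
  have key : ∀ {X Y : Type} [TopologicalSpace X] [TopologicalSpace Y] (φ : X ≃ₜ Y),
      (∃ f : Y ≃ Y, ConnectedMap f ∧ ¬ ConnectedMap f.symm) →
      (∃ f : X ≃ X, ConnectedMap f ∧ ¬ ConnectedMap f.symm) := by
    rintro X Y _ _ φ ⟨f, h1, h2⟩
    refine ⟨(φ.toEquiv.trans f).trans φ.symm.toEquiv, transfer φ f h1, fun h3 => h2 ?_⟩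
    have h4 := transfer φ.symm _ h3
    have h5 : ((φ.symm.toEquiv.trans ((φ.toEquiv.trans f).trans φ.symm.toEquiv).symm).trans
        φ.symm.symm.toEquiv) = f.symm := by
      ext y
      simp
    rw [h5] at h4
    exact h4
  exact ⟨key φ.symm, key φ⟩

/-- In dimension one a connected bijection has a connected inverse. -/
lemma dim_one (f : ℝ ≃ ℝ) (hf : ConnectedMap f) : ConnectedMap f.symm := by
  intro S hS
  refine ⟨hS.1.image _, ?_⟩
  rw [isPreconnected_iff_ordConnected]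
  have hSo := hS.2.ordConnected
  -- `f` preserves betweenness
  have hb : ∀ a c b : ℝ, a < c → c < b → f c ∈ Set.uIcc (f a) (f b) := by
    intro a c b hac hcb
    by_contra hno
    have h1 : (f '' Icc c b).OrdConnected :=
      ((hf _ (isConnected_Icc hcb.le)).2).ordConnected
    have h2 : (f '' Icc a c).OrdConnected :=
      ((hf _ (isConnected_Icc hac.le)).2).ordConnected
    have hfa : f a ∉ f '' Icc c b := by
      rintro ⟨x, hx, hxa⟩
      rw [f.injective hxa] at hx
      exact absurd hx.1 (not_le.2 hac)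
    have hfb : f b ∉ f '' Icc a c := by
      rintro ⟨x, hx, hxa⟩
      rw [f.injective hxa] at hx
      exact absurd hx.2 (not_le.2 hcb)
    have hcm1 : f c ∈ f '' Icc c b := ⟨c, ⟨le_rfl, hcb.le⟩, rfl⟩
    have hbm : f b ∈ f '' Icc c b := ⟨b, ⟨hcb.le, le_rfl⟩, rfl⟩
    have hcm2 : f c ∈ f '' Icc a c := ⟨c, ⟨hac.le, le_rfl⟩, rfl⟩
    have ham : f a ∈ f '' Icc a c := ⟨a, ⟨le_rfl, hac.le⟩, rfl⟩
    rw [Set.mem_uIcc, not_or] at hno
    obtain ⟨hn1, hn2⟩ := hno
    rcases le_total (f a) (f b) with hab | hab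
    · rcases le_total (f a) (f c) with hac' | hac'
      · have hbc : f b ≤ f c := by
          by_contra h
          exact hn1 ⟨hac', (not_le.1 h).le⟩
        exact hfb (h2.out ham hcm2 ⟨hab, hbc⟩)
      · exact hfa (h1.out hcm1 hbm ⟨hac', hab⟩)
    · rcases le_total (f b) (f c) with hbc' | hbc'
      · have hac' : f a ≤ f c := by
          by_contra h
          exact hn2 ⟨hbc', (not_le.1 h).le⟩
        exact hfa (h1.out hbm hcm1 ⟨hab, hac'⟩)
      · exact hfb (h2.out hcm2 ham ⟨hbc', hab⟩)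
  constructor
  rintro _ ⟨u, hu, rfl⟩ _ ⟨v, hv, rfl⟩ c ⟨h1, h2⟩
  refine ⟨f c, ?_, by simp⟩
  rcases h1.eq_or_lt with h | h
  · rw [← h]; simpa using hu
  rcases h2.eq_or_lt with h' | h'
  · rw [h']; simpa using hv
  have h3 := hb _ _ _ h h'
  simp only [Equiv.apply_symm_apply] at h3
  exact hSo.uIcc_subset hu hv h3

/-- **Answer to Q1.** Bijections `f : ℝⁿ → ℝⁿ` which map connected sets to connected sets, but
whose inverse does not, exist exactly for `n ≥ 2`. -/
theorem result (n : ℕ) (hn : 1 ≤ n) :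
    (∃ f : EuclideanSpace ℝ (Fin n) ≃ EuclideanSpace ℝ (Fin n),
      ConnectedMap f ∧ ¬ ConnectedMap f.symm) ↔ 2 ≤ n := by
  constructor
  · intro h
    by_contra hn2
    have hn1 : n = 1 := by omega
    subst hn1
    have hfr : Module.finrank ℝ (EuclideanSpace ℝ (Fin 1)) = Module.finrank ℝ ℝ := by simp
    let φ : EuclideanSpace ℝ (Fin 1) ≃ₜ ℝ := (ContinuousLinearEquiv.ofFinrankEq hfr).toHomeomorph
    obtain ⟨f, h1, h2⟩ := (transfer_iff φ).1 h
    exact h2 (dim_one f h1)
  · intro hn2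
    obtain ⟨k, rfl⟩ : ∃ k, n = k + 2 := ⟨n - 2, by omega⟩
    have hfr : Module.finrank ℝ (EuclideanSpace ℝ (Fin (k + 2))) =
        Module.finrank ℝ (ℝ × (Fin (k + 1) → ℝ)) := by
      simp
      omega
    let φ : EuclideanSpace ℝ (Fin (k + 2)) ≃ₜ (ℝ × (Fin (k + 1) → ℝ)) :=
      (ContinuousLinearEquiv.ofFinrankEq hfr).toHomeomorph
    rw [transfer_iff φ]
    have he : ‖(fun _ => 1 : Fin (k + 1) → ℝ)‖ = 1 := by
      rw [pi_norm_const]
      simp
    have hcard : #(ℝ × (Fin (k + 1) → ℝ)) ≤ 𝔠 := by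
      have h1 : #(Fin (k + 1) → ℝ) ≤ 𝔠 := by
        rw [← Cardinal.power_def, mk_fin, mk_real]
        exact power_nat_le aleph0_le_continuum
      rw [mk_prod, lift_id, lift_id, mk_real]
      calc 𝔠 * #(Fin (k + 1) → ℝ) ≤ 𝔠 * 𝔠 := by gcongr
        _ = 𝔠 := continuum_mul_self
    obtain ⟨f, hf1, S, hS1, hS2⟩ := ConnBij.main he hcard
    refine ⟨f, fun S hS => ⟨hS.1.image _, hf1 S hS.2⟩, fun h => hS2 (h S hS1).2⟩

end Pool.Agent.Results.MP_8f6e3d_gt.ConnectedBijections
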